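import Mathlib
import Pool.Agent.Q297.MA.Defs
import Pool.Agent.Q297.MA.Main

/-!
# A bireversible Mealy automaton generating a finite group of order greater than `(p!)^q`

There is a 4-letter 7-state bireversible Mealy automaton whose group is finite of order at least
`3 ^ 21`, which is greater than `(4!) ^ 7`. So Q1 has a negative answer.

The letters are `0, 1, 2, 3`. The states are `0, …, 6`. Reading the letter `3` swaps the states
`0` and `1`, reading any other letter rotates the states. The state `0` swaps the letters `0, 1`,
the state `1` swaps the letters `1, 2`, the other states fix all letters. The elements of the group
are described by functions from the group of all permutations of the states to the group of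
permutations of the letters `0, 1, 2`, and the commutators of the 21 pairs of states have disjoint
supports and order 3.
-/

set_option autoImplicit false

namespace Pool.Agent.Results.MP_965ec6_al.LargeFiniteGroup

open Pool.Agent.Q297.MA

theorem result : ∃ (p q : ℕ) (A : Mealy q p), 1 ≤ p ∧ 1 ≤ q ∧ A.Bireversible ∧
    Finite A.group ∧ p.factorial ^ q < Nat.card A.group := by
  refine ⟨4, 7, Aut, by norm_num, by norm_num, bireversible, group_finite.to_subtype, ?_⟩
  refine lt_of_lt_of_le ?_ card_group
  norm_num [Nat.factorial]

end Pool.Agent.Results.MP_965ec6_al.LargeFiniteGroup
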